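import Mathlib
import Pool.Agent.H.MP_821f63_lc.B

set_option autoImplicit false

namespace Pool.Agent.Results.MP_821f63_lc.Counter

open Function

variable (F : Type) [Field F]

/-- `G` serves the family `v`: there are pairwise disjoint recovery sets. -/
def Serves {k n t : ℕ} (G : Matrix (Fin k) (Fin n) F) (v : Fin t → Fin k → F) : Prop :=
  ∃ R : Fin t → Finset (Fin n), Pairwise (Disjoint on R) ∧
    ∀ i, v i ∈ Submodule.span F (G.col '' R i)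

def PIR {k n : ℕ} (G : Matrix (Fin k) (Fin n) F) (t : ℕ) : Prop :=
  ∀ j, Serves F G fun _ : Fin t => G.col j

def Batch {k n : ℕ} (G : Matrix (Fin k) (Fin n) F) (t : ℕ) : Prop :=
  ∀ c : Fin t → Fin n, Serves F G fun i => G.col (c i)

noncomputable def ASP (k t : ℕ) : ℕ∞ :=
  ⨅ (n : ℕ) (_ : ∃ G : Matrix (Fin k) (Fin n) F, LinearIndependent F G.row ∧ PIR F G t), (n : ℕ∞)

noncomputable def ASB (k t : ℕ) : ℕ∞ :=
  ⨅ (n : ℕ) (_ : ∃ G : Matrix (Fin k) (Fin n) F, LinearIndependent F G.row ∧ Batch F G t), (n : ℕ∞)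

open Pool.Agent.H.MP_821f63_lc

theorem le_asb (k t : ℕ) : ASP F k t ≤ ASB F k t :=
  iInf_mono fun _ => iInf_const_mono fun ⟨G, h1, h2⟩ => ⟨G, h1, fun j => h2 fun _ => j⟩

theorem low : 14 ≤ ASP (ZMod 3) 3 7 := by
  refine le_iInf₂ fun n ⟨G, h1, h2⟩ => ?_
  by_contra hn
  refine lower (n := n) (by norm_cast at hn; omega) G.col (fun l => ?_) h2
  by_contra! hc
  refine (f3 l).1 (funext (Fintype.linearIndependent_iff.1 h1 (fn l) (funext fun j => ?_)))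
  simpa [ph_ap, Fin.sum_univ_three] using hc j

theorem up5 : ASB (ZMod 3) 3 5 ≤ 9 := by
  refine iInf₂_le_of_le 9 ⟨!![0, 0, 0, 1, 1, 1, 2, 2, 2; 0, 1, 2, 0, 1, 2, 0, 1, 2; 1, 1, 1, 1, 1, 1, 1, 1, 1], ?_, ?_⟩ le_rfl
  · rw [Fintype.linearIndependent_iff]; decide +kernel
  · refine upper _ ![[[0], [1, 2], [3, 6], [4, 8], [5, 7]], [[1], [0, 2], [3, 8], [4, 7], [5, 6]], [[2], [0, 1], [3, 7], [4, 6], [5, 8]], [[3], [0, 6], [1, 8], [2, 7], [4, 5]], [[4], [0, 8], [1, 7], [2, 6], [3, 5]], [[5], [0, 7], [1, 6], [2, 8], [3, 4]], [[6], [0, 3], [1, 5], [2, 4], [7, 8]], [[7], [0, 5], [1, 4], [2, 3], [6, 8]], [[8], [0, 4], [1, 3], [2, 5], [6, 7]]] (by decide +kernel) fun c hc => ?_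
    have : ∀ a b : Fin 9, a ≤ b → ∀ c : Fin 9, b ≤ c → ∀ d : Fin 9, c ≤ d → ∀ e : Fin 9, d ≤ e →
      srv ![[[0], [1, 2], [3, 6], [4, 8], [5, 7]], [[1], [0, 2], [3, 8], [4, 7], [5, 6]], [[2], [0, 1], [3, 7], [4, 6], [5, 8]], [[3], [0, 6], [1, 8], [2, 7], [4, 5]], [[4], [0, 8], [1, 7], [2, 6], [3, 5]], [[5], [0, 7], [1, 6], [2, 8], [3, 4]], [[6], [0, 3], [1, 5], [2, 4], [7, 8]], [[7], [0, 5], [1, 4], [2, 3], [6, 8]], [[8], [0, 4], [1, 3], [2, 5], [6, 7]]] [a, b, c, d, e] [] = true := by decide +kernel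
    simpa [List.ofFn_succ] using this (c 0) (c 1) (hc (by decide)) (c 2) (hc (by decide)) (c 3)
      (hc (by decide)) (c 4) (hc (by decide))

theorem up2 : ASB (ZMod 3) 3 2 ≤ 4 := by
  refine iInf₂_le_of_le 4 ⟨!![1, 0, 0, 2; 0, 1, 0, 2; 0, 0, 1, 2], ?_, ?_⟩ le_rfl
  · rw [Fintype.linearIndependent_iff]; decide +kernel
  · refine upper _ ![[[0], [1, 2, 3]], [[1], [0, 2, 3]], [[2], [0, 1, 3]], [[3], [0, 1, 2]]]
      (by decide +kernel) fun c _ => ?_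
    revert c; decide +kernel

theorem result :
    ASP (ZMod 3) 3 5 + ASP (ZMod 3) 3 2 < ASP (ZMod 3) 3 (5 + 2) ∧
    ASB (ZMod 3) 3 5 + ASB (ZMod 3) 3 2 < ASB (ZMod 3) 3 (5 + 2) := by
  have h : ASB (ZMod 3) 3 5 + ASB (ZMod 3) 3 2 < ASP (ZMod 3) 3 (5 + 2) :=
    ((add_le_add up5 up2).trans_lt (by norm_num)).trans_le low
  exact ⟨(add_le_add (le_asb ..) (le_asb ..)).trans_lt h, h.trans_le (le_asb ..)⟩

end Pool.Agent.Results.MP_821f63_lc.Counter
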